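import Mathlib

namespace Pool.Agent.Results.MP_1a5b88_nt.QOneFalse

open PowerSeries

/-- `t m n` is the coefficient of `x^n` in `(∏_{i ≥ 0} (1 - x^(2^i)))^m`; the factors with
`i > n` do not influence this coefficient. -/
noncomputable def t (m n : ℕ) : ℤ :=
  coeff n ((∏ i ∈ Finset.range (n + 1), (1 - X ^ (2 ^ i) : PowerSeries ℤ)) ^ m)

/-- one multiplication by `1 - X^s` on a truncated coefficient list -/
def step (s : ℕ) (l : List ℤ) : List ℤ := List.zipWith (· - ·) l (List.replicate s 0 ++ l)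

/-- `k` multiplications -/
def iter (s : ℕ) : ℕ → List ℤ → List ℤ
  | 0, l => l
  | k + 1, l => iter s k (step s l)

/-- multiplication by `(1 - X^(2^i))^m` for `i = a, ..., a + c - 1` -/
def all (m : ℕ) : ℕ → ℕ → List ℤ → List ℤ
  | _, 0, l => l
  | a, c + 1, l => all m (a + 1) c (iter (2 ^ a) m l)

/-- the list represents the first coefficients of the series -/
def Rep (l : List ℤ) (f : PowerSeries ℤ) : Prop := ∀ i, (h : i < l.length) → l[i] = coeff i f

theorem rep_step (s : ℕ) (l : List ℤ) (f : PowerSeries ℤ) (h : Rep l f) :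
    Rep (step s l) ((1 - X ^ s) * f) := by
  intro i hi
  have hl : i < l.length := by
    simp only [step, List.length_zipWith, List.length_append, List.length_replicate] at hi
    omega
  simp only [step, List.getElem_zipWith]
  rw [sub_mul, one_mul, map_sub, coeff_X_pow_mul', h i hl]
  congr 1
  by_cases hs : s ≤ i
  · rw [if_pos hs, List.getElem_append_right (by simpa using hs), ← h (i - s) (by omega)]
    simp
  · rw [if_neg hs, List.getElem_append_left (by simpa using hs)]
    simp

theorem rep_iter (s : ℕ) : ∀ (k : ℕ) (l : List ℤ) (f : PowerSeries ℤ), Rep l f →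
    Rep (iter s k l) ((1 - X ^ s) ^ k * f) := by
  intro k
  induction k with
  | zero => intro l f h; simpa [iter] using h
  | succ k ih =>
    intro l f h
    have := ih (step s l) _ (rep_step s l f h)
    rw [← mul_assoc, ← pow_succ] at this
    exact this

theorem rep_all (m : ℕ) : ∀ (c a : ℕ) (l : List ℤ) (f : PowerSeries ℤ), Rep l f →
    Rep (all m a c l) ((∏ i ∈ Finset.range c, (1 - X ^ (2 ^ (a + i)))) ^ m * f) := by
  intro c
  induction c with
  | zero =>
    intro a l f h
    rw [Finset.prod_range_zero, one_pow, one_mul]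
    exact h
  | succ c ih =>
    intro a l f h
    have := ih (a + 1) _ _ (rep_iter (2 ^ a) m l f h)
    rw [Finset.prod_range_succ', mul_pow, mul_assoc]
    simp only [add_zero]
    have e : ∏ i ∈ Finset.range c, (1 - X ^ (2 ^ (a + (i + 1))) : PowerSeries ℤ) =
        ∏ i ∈ Finset.range c, (1 - X ^ (2 ^ (a + 1 + i))) := by
      apply Finset.prod_congr rfl
      intro i _
      rw [show a + (i + 1) = a + 1 + i by omega]
    rw [e]
    exact this

/-- the starting list, of length `c + 1` -/
def start (c : ℕ) : List ℤ := 1 :: List.replicate c 0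

theorem rep_start (c : ℕ) : Rep (start c) 1 := by
  unfold start
  intro i hi
  rw [coeff_one]
  cases i with
  | zero => rfl
  | succ i =>
    rw [List.getElem_cons_succ, List.getElem_replicate, if_neg (Nat.succ_ne_zero i)]

/-- high factors do not matter -/
theorem coeff_stable (m n N : ℕ) (hN : n < 2 ^ N) (M : ℕ) (hM : N ≤ M) :
    coeff n ((∏ i ∈ Finset.range M, (1 - X ^ (2 ^ i) : PowerSeries ℤ)) ^ m) =
      coeff n ((∏ i ∈ Finset.range N, (1 - X ^ (2 ^ i) : PowerSeries ℤ)) ^ m) := by
  induction M, hM using Nat.le_induction with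
  | base => rfl
  | succ M hM ih =>
    rw [← ih, Finset.prod_range_succ, mul_pow]
    have h1 : n < 2 ^ M := lt_of_lt_of_le hN (Nat.pow_le_pow_right (by norm_num) hM)
    obtain ⟨q, hq⟩ : ∃ q : PowerSeries ℤ, (1 - X ^ (2 ^ M)) ^ m = 1 + X ^ (2 ^ M) * q := by
      have h2 : (1 - X ^ (2 ^ M) : PowerSeries ℤ) - 1 ∣ (1 - X ^ (2 ^ M)) ^ m - 1 ^ m :=
        sub_dvd_pow_sub_pow _ _ _
      obtain ⟨q, hq⟩ := h2
      refine ⟨-q, ?_⟩
      rw [one_pow] at hq
      linear_combination hq
    rw [hq, mul_add, mul_one, map_add, mul_left_comm, coeff_X_pow_mul', if_neg (by omega), add_zero]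

/-- the computed list -/
def L : List ℤ := all 17 0 9 (start 504)

theorem L_spec (n : ℕ) (hn : n < 505) (hL : n < L.length) : t 17 n = L[n] := by
  have h := rep_all 17 9 0 (start 504) 1 (rep_start 504) n hL
  rw [show L[n] = _ from h]
  simp only [zero_add, mul_one]
  rw [t]
  have h9 : n < 2 ^ 9 := by omega
  have h1 := coeff_stable 17 n 9 h9 (n + 10) (by omega)
  have h2 := coeff_stable 17 n (n + 1) (lt_trans (Nat.lt_succ_self n) Nat.lt_two_pow_self)
    (n + 10) (by omega)
  rw [← h2, h1]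

theorem check : L.length = 505 ∧ (L.getD 496 0) % 524288 = 262144 ∧
    (L.getD 504 0) % 524288 = 0 := by
  decide +kernel

theorem t496 : ¬ (2 : ℤ) ^ 19 ∣ t 17 496 := by
  obtain ⟨h1, h2, -⟩ := check
  rw [L_spec 496 (by norm_num) (by omega)]
  rw [List.getD_eq_getElem _ _ (by omega)] at h2
  norm_num
  omega

theorem t504 : (2 : ℤ) ^ 19 ∣ t 17 504 := by
  obtain ⟨h1, -, h2⟩ := check
  rw [L_spec 504 (by norm_num) (by omega)]
  rw [List.getD_eq_getElem _ _ (by omega)] at h2
  norm_num
  omega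

theorem result : ¬ ∀ k : ℕ, 2 ≤ k → ∃ A : ℕ → ℕ, StrictMono A ∧ A 0 = 0 ∧
    ∀ n j : ℕ, j < 2 ^ k →
      emultiplicity 2 (t (2 ^ k + 1) (2 ^ k * n + j)) = (A (padicValNat 2 (n + 1)) : ℕ∞) := by
  intro h
  obtain ⟨A, -, -, hA⟩ := h 4 (by norm_num)
  have h0 := hA 31 0 (by norm_num)
  have h8 := hA 31 8 (by norm_num)
  norm_num at h0 h8
  have h3 : ((19 : ℕ) : ℕ∞) ≤ emultiplicity 2 (t 17 504) := by
    rw [← pow_dvd_iff_le_emultiplicity]; exact t504
  rw [h8, ← h0, ← pow_dvd_iff_le_emultiplicity] at h3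
  exact t496 h3

end Pool.Agent.Results.MP_1a5b88_nt.QOneFalse
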