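import Mathlib
import Pool.Agent.Q35.Thue

namespace Pool.Agent.Results.MP_1a5b88_nt.QTwo

open PowerSeries Pool.Agent.Q35 Pool.Agent.Q35.Thue

/-- `t m n` is the coefficient of `x^n` in `(∏_{i ≥ 0} (1 - x^(2^i)))^m`; the factors with
`i > n` do not influence this coefficient. -/
noncomputable def t (m n : ℕ) : ℤ :=
  coeff n ((∏ i ∈ Finset.range (n + 1), (1 - X ^ (2 ^ i) : PowerSeries ℤ)) ^ m)

theorem t_eq (m : ℕ) (f : PowerSeries ℤ) (hf : f = (1 - X) ^ m * E 2 f) (h0 : coeff 0 f = 1)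
    (n : ℕ) : t m n = coeff n f := by
  have := coeff_sub_prod (le_refl 2) m f hf h0 n (n + 1) (Nat.lt_succ_self n) 1
  rw [one_mul, one_mul] at this
  exact this

theorem exists_f (m : ℕ) : ∃ f : PowerSeries ℤ, f = (1 - X) ^ m * E 2 f ∧ coeff 0 f = 1 := by
  apply exists_func (le_refl 2)
  rw [coeff_zero_eq_constantCoeff_apply, map_pow, map_sub, map_one, constantCoeff_X, sub_zero,
    one_pow]

/-- a matrix from a list of rows -/
def mat (a b : ℕ) (l : List (List ℤ)) : Matrix (Fin a) (Fin b) ℤ :=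
  fun i j => (l.getD i []).getD j 0

def N5 : Matrix (Fin (2 ^ 2)) (Fin (2 ^ 2)) ℤ := mat _ _
  [[-5, -10, -1, 0],
    [1, 10, 5, 0],
    [0, -5, -10, -1],
    [0, 1, 10, 5]]

def Q5 : Matrix (Fin (2 ^ 2)) (Fin (2 ^ 2)) ℤ := mat _ _
  [[15, 32, 0, 64],
    [5, -16, 256, 0],
    [-5, 16, 0, 0],
    [1, 0, 0, 0]]

def R5 : Matrix (Fin (2 ^ 2)) (Fin (2 ^ 2)) ℤ := mat _ _
  [[5, -8, -560, 4],
    [0, 1, -176, 0],
    [0, 0, 4, 0],
    [-1, 2, 208, 0]]

def P5 : Matrix (Fin (2 ^ 2)) (Fin 5) ℤ := mat _ _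
  [[1, 140, -170, -340, -15],
    [0, 45, -15, -89, -5],
    [0, -1, 0, 1, 0],
    [0, -50, 50, 122, 6]]

def N9 : Matrix (Fin (2 ^ 3)) (Fin (2 ^ 3)) ℤ := mat _ _
  [[-9, -84, -126, -36, -1, 0, 0, 0],
    [1, 36, 126, 84, 9, 0, 0, 0],
    [0, -9, -84, -126, -36, -1, 0, 0],
    [0, 1, 36, 126, 84, 9, 0, 0],
    [0, 0, -9, -84, -126, -36, -1, 0],
    [0, 0, 1, 36, 126, 84, 9, 0],
    [0, 0, 0, -9, -84, -126, -36, -1],
    [0, 0, 0, 1, 36, 126, 84, 9]]

def Q9 : Matrix (Fin (2 ^ 3)) (Fin (2 ^ 3)) ℤ := mat _ _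
  [[86149417, -133779232, 21674288, -42487232, 84273664, 51109888, 129499136, 268435456],
    [244495, -207808, 139856, -87104, -47616, -122880, 524288, 0],
    [16003, 544, -7808, -6464, 28160, 65536, 0, 0],
    [85, 256, -128, -192, 512, 0, 0, 0],
    [1821, -480, -912, 4096, 0, 0, 0, 0],
    [-5, 0, 16, 0, 0, 0, 0, 0],
    [-9, 32, 0, 0, 0, 0, 0, 0],
    [1, 0, 0, 0, 0, 0, 0, 0]]

def R9 : Matrix (Fin (2 ^ 3)) (Fin (2 ^ 3)) ℤ := mat _ _
  [[196349, -73670, -93464, 625232, -129792, -335616, 16384, 0],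
    [52571, -16864, -27388, 162120, -26816, -73728, 0, 0],
    [67874, -32536, -17991, 165478, -37392, -90624, 32768, 0],
    [-66103, 23514, 34371, -221916, 45984, 119808, 0, 0],
    [-62984, 15343, 37088, -228884, 50144, 122752, 8192, 16384],
    [-20076, 10524, 8283, -57685, 10104, 30656, -4096, -8192],
    [-110103, 43899, 48587, -342696, 74564, 189768, -16384, 0],
    [23954, -6411, -13421, 79817, -15050, -38676, -1792, -3584]]

def P9 : Matrix (Fin (2 ^ 3)) (Fin 9) ℤ := mat _ _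
  [[1, -18000, 1798740, 6401376, -18373410, -19239696, 190404, 307584, -1143],
    [0, -2844, 490212, 1365876, -5470668, -4965460, 176940, 83196, -324],
    [2, -9553, 443151, 2405115, -3991233, -5657427, -143811, 89193, -333],
    [0, 5532, -642924, -2147988, 6634980, 6707796, -96004, -107100, 396],
    [0, 4391, -674585, -1983789, 7246275, 6796757, -186891, -110607, 417],
    [0, 1938, -164102, -647286, 1597650, 1806486, 5710, -28210, 102],
    [-1, 11587, -969264, -3774103, 9599376, 10668277, -11884, -168705, 621],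
    [0, -1331, 240112, 658880, -2667423, -2405867, 86810, 40078, -155]]


theorem par5 (f : PowerSeries ℤ) (hf : f = (1 - X) ^ 5 * E 2 f) (h0 : coeff 0 f = 1) (n : ℕ) :
    cz f n % 2 = if n % 8 < 4 then 1 else 0 := by
  induction n using Nat.strong_induction_on with
  | _ n ih =>
    rcases Nat.eq_zero_or_pos n with rfl | hn
    · rw [cz_nat, h0]; rfl
    have key : ∀ (i : ℕ) (s : ℕ), i < n → cz f ((i : ℤ) - (s : ℕ)) % 2 =
        if s ≤ i ∧ (i - s) % 8 < 4 then 1 else 0 := by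
      intro i s hi
      rcases Nat.lt_or_ge i s with h | h
      · rw [cz_neg _ _ (by omega), if_neg (by omega)]; rfl
      · have e : (i : ℤ) - (s : ℕ) = ((i - s : ℕ) : ℤ) := by push_cast [h]; ring
        rw [e, ih (i - s) (by omega)]
        by_cases h2 : (i - s) % 8 < 4
        · rw [if_pos h2, if_pos ⟨h, h2⟩]
        · rw [if_neg h2, if_neg (fun hh => h2 hh.2)]
    rcases Nat.even_or_odd' n with ⟨i, h | h⟩
    · have e : cz f n = cz f ((i : ℤ) - (0 : ℕ)) + 10 * cz f ((i : ℤ) - (1 : ℕ)) +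
          5 * cz f ((i : ℤ) - (2 : ℕ)) := by
        conv_lhs => rw [hf, cz_pow, h]
        push_cast
        simp only [Finset.sum_range_succ, Finset.sum_range_zero, cz_E_two]
        norm_num [Nat.choose]
      have k0 := key i 0 (by omega)
      have k1 := key i 1 (by omega)
      have k2 := key i 2 (by omega)
      rw [e]
      split_ifs at k0 k1 k2 ⊢ <;> omega
    · have e : cz f n = -(5 * cz f ((i : ℤ) - (0 : ℕ)) + 10 * cz f ((i : ℤ) - (1 : ℕ)) +
          cz f ((i : ℤ) - (2 : ℕ))) := by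
        conv_lhs => rw [hf, cz_pow, h]
        have e1 : ∀ r : ℕ, cz (E 2 f) (((2 * i + 1 : ℕ) : ℤ) - r) =
            cz (E 2 f) (2 * ((i : ℤ) + 1) - ((r + 1 : ℕ) : ℤ)) := by
          intro r; congr 1; push_cast; ring
        simp only [e1, cz_E_two]
        simp only [Finset.sum_range_succ, Finset.sum_range_zero]
        norm_num [Nat.choose]
        ring_nf
      have k0 := key i 0 (by omega)
      have k1 := key i 1 (by omega)
      have k2 := key i 2 (by omega)
      rw [e]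
      split_ifs at k0 k1 k2 ⊢ <;> omega

theorem par9 (f : PowerSeries ℤ) (hf : f = (1 - X) ^ 9 * E 2 f) (h0 : coeff 0 f = 1) (n : ℕ) :
    cz f n % 2 = if n % 16 < 8 then 1 else 0 := by
  induction n using Nat.strong_induction_on with
  | _ n ih =>
    rcases Nat.eq_zero_or_pos n with rfl | hn
    · rw [cz_nat, h0]; rfl
    have key : ∀ (i : ℕ) (s : ℕ), i < n → cz f ((i : ℤ) - (s : ℕ)) % 2 =
        if s ≤ i ∧ (i - s) % 16 < 8 then 1 else 0 := by
      intro i s hi
      rcases Nat.lt_or_ge i s with h | h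
      · rw [cz_neg _ _ (by omega), if_neg (by omega)]; rfl
      · have e : (i : ℤ) - (s : ℕ) = ((i - s : ℕ) : ℤ) := by push_cast [h]; ring
        rw [e, ih (i - s) (by omega)]
        by_cases h2 : (i - s) % 16 < 8
        · rw [if_pos h2, if_pos ⟨h, h2⟩]
        · rw [if_neg h2, if_neg (fun hh => h2 hh.2)]
    rcases Nat.even_or_odd' n with ⟨i, h | h⟩
    · have e : cz f n = cz f ((i : ℤ) - (0 : ℕ)) + 36 * cz f ((i : ℤ) - (1 : ℕ)) +
          126 * cz f ((i : ℤ) - (2 : ℕ)) + 84 * cz f ((i : ℤ) - (3 : ℕ)) +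
          9 * cz f ((i : ℤ) - (4 : ℕ)) := by
        conv_lhs => rw [hf, cz_pow, h]
        push_cast
        simp only [Finset.sum_range_succ, Finset.sum_range_zero, cz_E_two]
        norm_num [Nat.choose]
      have k0 := key i 0 (by omega)
      have k4 := key i 4 (by omega)
      rw [e]
      split_ifs at k0 k4 ⊢ <;> omega
    · have e : cz f n = -(9 * cz f ((i : ℤ) - (0 : ℕ)) + 84 * cz f ((i : ℤ) - (1 : ℕ)) +
          126 * cz f ((i : ℤ) - (2 : ℕ)) + 36 * cz f ((i : ℤ) - (3 : ℕ)) +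
          cz f ((i : ℤ) - (4 : ℕ))) := by
        conv_lhs => rw [hf, cz_pow, h]
        have e1 : ∀ r : ℕ, cz (E 2 f) (((2 * i + 1 : ℕ) : ℤ) - r) =
            cz (E 2 f) (2 * ((i : ℤ) + 1) - ((r + 1 : ℕ) : ℤ)) := by
          intro r; congr 1; push_cast; ring
        simp only [e1, cz_E_two]
        simp only [Finset.sum_range_succ, Finset.sum_range_zero]
        norm_num [Nat.choose]
        ring_nf
      have k0 := key i 0 (by omega)
      have k4 := key i 4 (by omega)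
      rw [e]
      split_ifs at k0 k4 ⊢ <;> omega

theorem val5 (n j : ℕ) (hj : j < 4) : emultiplicity 2 (t 5 (4 * n + j)) =
    ((4 * (padicValNat 2 (n + 1) / 2) + 3 * (padicValNat 2 (n + 1) % 2) : ℕ) : ℕ∞) := by
  obtain ⟨f, hf, h0⟩ := exists_f 5
  rw [t_eq 5 f hf h0]
  have := val 5 2 4 (by norm_num) f hf N5 Q5 R5 P5 (by decide +kernel) (by decide +kernel)
    (by decide +kernel) (by decide +kernel) (by decide +kernel) (by decide +kernel)
    (by
      intro n
      have h := par5 f hf h0 (8 * n)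
      have e : ((2 : ℤ) ^ 2 * (2 * (n : ℤ))) = ((8 * n : ℕ) : ℤ) := by push_cast; ring
      rw [e, h, if_pos (by omega)]) n j (by omega)
  exact this

theorem val9 (n j : ℕ) (hj : j < 8) : emultiplicity 2 (t 9 (8 * n + j)) =
    ((5 * (padicValNat 2 (n + 1) / 2) + 3 * (padicValNat 2 (n + 1) % 2) : ℕ) : ℕ∞) := by
  obtain ⟨f, hf, h0⟩ := exists_f 9
  rw [t_eq 9 f hf h0]
  have := val 9 3 5 (by norm_num) f hf N9 Q9 R9 P9 (by decide +kernel) (by decide +kernel)
    (by decide +kernel) (by decide +kernel) (by decide +kernel) (by decide +kernel)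
    (by
      intro n
      have h := par9 f hf h0 (16 * n)
      have e : ((2 : ℤ) ^ 3 * (2 * (n : ℤ))) = ((16 * n : ℕ) : ℤ) := by push_cast; ring
      rw [e, h, if_pos (by omega)]) n j (by omega)
  exact this

/-- Both explicit formulas: with `v = v_2(n+1)`, the `2`-adic valuation of `t_5(4n+j)` is
`4 ⌈v/2⌉ - (v mod 2)` for `j < 4` and that of `t_9(8n+j)` is `5 ⌈v/2⌉ - 2 (v mod 2)` for `j < 8`. -/
theorem result : (∀ n j : ℕ, j < 4 → emultiplicity 2 (t 5 (4 * n + j)) =
      ((4 * ((padicValNat 2 (n + 1) + 1) / 2) - padicValNat 2 (n + 1) % 2 : ℕ) : ℕ∞)) ∧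
    (∀ n j : ℕ, j < 8 → emultiplicity 2 (t 9 (8 * n + j)) =
      ((5 * ((padicValNat 2 (n + 1) + 1) / 2) - 2 * (padicValNat 2 (n + 1) % 2) : ℕ) : ℕ∞)) := by
  refine ⟨fun n j hj => ?_, fun n j hj => ?_⟩
  · rw [val5 n j hj]
    congr 1
    omega
  · rw [val9 n j hj]
    congr 1
    omega

end Pool.Agent.Results.MP_1a5b88_nt.QTwo
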